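import Pool.Agent.NH62.Lip.Main
import Pool.Agent.NH62.Lip.Dvo
import Pool.Agent.NH62.Lip.Compl

/-!
# `Lip_0(ℓ₂)` is complemented in `Lip_0(X)` for every infinite-dimensional `X`
-/

set_option autoImplicit false

namespace Pool.Agent.Results.MP_b215b5_an.ComplementedLipHilbert

open Pool.Agent.H266R3.LF Pool.Agent.NH62.Lip

/-- For every infinite-dimensional real normed space `X`, the space `Lip_0(ℓ₂)` is linearly
isomorphic to a complemented subspace of `Lip_0(X)`. -/
theorem result (X : Type) [NormedAddCommGroup X] [NormedSpace ℝ X]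
    (hX : ¬ FiniteDimensional ℝ X) :
    IsoComplemented (Lip0 (lp (fun _ : ℕ => ℝ) 2) 0) (Lip0 X 0) := by
  haveI : Nontrivial X := by
    by_contra hn
    rw [not_nontrivial_iff_subsingleton] at hn
    exact hX inferInstance
  choose q hq1 hq2 using exists_quot hX
  obtain ⟨J, Q, h⟩ := factor (X := X) (M := L2) (o := 0) q (a := 22) (b := 2) (α := 1) (β := 1)
    (by norm_num) (by norm_num) (by norm_num) (by norm_num) hq1 hq2 I2 P2 I2_lip P2_lip
    I2_zero P2_zero I2_P2
  exact isoComplemented_of_factor J Q h

end Pool.Agent.Results.MP_b215b5_an.ComplementedLipHilbert
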